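import Pool.Agent.helper73.BRZ.Spec

/-!
# Row brz:NOD
-/

set_option autoImplicit false

namespace Pool.Agent.BRZ

open Matrix Module Pool.Agent.PR Pool.Agent.SHL TensorProduct MeasureTheory

/-! ### Integral matrices have integral trace -/

theorem NOD_root_int {K : Type} [Field K] {m : ℕ} (M : Matrix (Fin m) (Fin m) K)
    (h : IsIntegral ℤ M) (μ : K) (hμ : M.charpoly.IsRoot μ) : IsIntegral ℤ μ := by
  obtain ⟨p, hp, hpM⟩ := h
  have h1 : (LinearMap.toMatrix (Pi.basisFun K (Fin m)) (Pi.basisFun K (Fin m))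
      (Matrix.toLin' M)) = M := by
    rw [LinearMap.toMatrix_eq_toMatrix', LinearMap.toMatrix'_toLin']
  have h2 : (Matrix.toLin' M : Module.End K (Fin m → K)).charpoly.IsRoot μ := by
    have := LinearMap.charpoly_toMatrix (Matrix.toLin' M : Module.End K (Fin m → K))
      (Pi.basisFun K (Fin m))
    rw [h1] at this
    rw [← this]
    exact hμ
  have h3 := (Module.End.hasEigenvalue_iff_isRoot_charpoly
    (Matrix.toLin' M : Module.End K (Fin m → K)) μ).2 h2
  obtain ⟨v, hv⟩ := h3.exists_hasEigenvector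
  have h4 : Polynomial.aeval M p = 0 := hpM
  have h5 : Polynomial.aeval (Matrix.toLin' M : Module.End K (Fin m → K))
      (p.map (algebraMap ℤ K)) = 0 := by
    have h6 := Polynomial.aeval_algHom_apply
      ((Matrix.toLinAlgEquiv' : Matrix (Fin m) (Fin m) K ≃ₐ[K] _).toAlgHom) M
      (p.map (algebraMap ℤ K))
    have h7 : Polynomial.aeval M (p.map (algebraMap ℤ K)) = 0 := by
      rw [Polynomial.aeval_map_algebraMap]
      exact h4
    rw [h7, map_zero] at h6
    exact h6
  have h8 := Module.End.aeval_apply_of_hasEigenvector (p := p.map (algebraMap ℤ K)) hv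
  rw [h5, LinearMap.zero_apply] at h8
  refine ⟨p, hp, ?_⟩
  have h9 : (p.map (algebraMap ℤ K)).eval μ = 0 := by
    rcases smul_eq_zero.1 h8.symm with h | h
    · exact h
    · exact absurd h hv.2
  rwa [Polynomial.eval_map] at h9

theorem NOD_tr_int {F : Type} [Field F] {m : ℕ} (M : Matrix (Fin m) (Fin m) F)
    (h : IsIntegral ℤ M) : IsIntegral ℤ M.trace := by
  let K := AlgebraicClosure F
  have h1 : IsIntegral ℤ (M.map (algebraMap F K)) :=
    h.map (((algebraMap F K).mapMatrix (m := Fin m)).toIntAlgHom)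
  have h2 : IsIntegral ℤ (M.map (algebraMap F K)).trace := by
    rw [Matrix.trace_eq_sum_roots_charpoly]
    refine IsIntegral.multiset_sum fun μ hμ => ?_
    exact NOD_root_int _ h1 μ (Polynomial.isRoot_of_mem_roots hμ)
  have h3 : (M.map (algebraMap F K)).trace = algebraMap F K M.trace := by
    simp only [Matrix.trace, Matrix.diag, Matrix.map_apply, map_sum]
  rw [h3] at h2
  exact (isIntegral_algebraMap_iff (algebraMap F K).injective).1 h2


/-! ### The main argument -/

theorem NOD_al_mul {n : ℕ} {Λ : Type} [Group Λ] (f : Fam n Λ) (p : Nat.Primes) (l m : Λ) :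
    al f p (l * m) = al f p l * al f p m := by
  apply Subtype.ext
  show qM (f p (l * m)) = qM (f p l) * qM (f p m)
  rw [map_mul]
  unfold qM
  rw [Units.val_mul, Matrix.map_mul]

theorem NOD_al_one {n : ℕ} {Λ : Type} [Group Λ] (f : Fam n Λ) (p : Nat.Primes) :
    al f p 1 = 1 := by
  apply Subtype.ext
  show qM (f p 1) = 1
  rw [map_one]
  unfold qM
  rw [Units.val_one, Matrix.map_one _ (map_zero _) (map_one _)]

theorem NOD (hCSA : CSA_stmt) (hWED : WED_stmt) (hCHM : CHM_stmt) (hBLK : BLK_stmt)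
    (hORA : ORA_stmt) (hORE : ORE_stmt) (hTRC : TRC_stmt) (hSPL : SPL_stmt) (hBRZ : BRZ_stmt) :
    NOD_stmt := by
  intro n hn Λ _ hFG hQ f hf p
  obtain ⟨hFD, hrank, hsim, hcenA, -, hspan⟩ := hCSA n hn Λ hFG hQ f hf p
  obtain ⟨k, d, D, _, _, hFDD, hcen, hdd, hnk, ⟨e⟩⟩ := hWED (AL f p) n hcenA hrank
  subst hnk
  have hk : 0 < k := Nat.pos_of_ne_zero (by rintro rfl; omega)
  have hd : 0 < d := Nat.pos_of_ne_zero (by rintro rfl; omega)
  have hd1 : d = 1 := by
    by_contra hne
    have hd2 : 2 ≤ d := by omega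
    have hCH := hCHM (d * k) hn Λ hFG hQ f hf p
    choose s ψ0 h1 h2 h3 using hCH
    have hτ : ∀ x : AL f p, ∃ t : ℚ, ∀ q : Nat.Primes, (ψ0 q x).trace = (t : ℚ_[(q : ℕ)]) := by
      intro x
      obtain ⟨t, ht, _⟩ := h2 p x
      refine ⟨t, fun q => ?_⟩
      obtain ⟨t', ht', htq⟩ := h2 q x
      have h4 : t' = t := by
        have h5 : ((t' : ℚ) : ℚ_[(p : ℕ)]) = (t : ℚ_[(p : ℕ)]) := by rw [← ht', ht]
        exact_mod_cast h5
      rw [htq, h4]
    choose τ0 hτ0 using hτ
    let ψ : (q : Nat.Primes) → Matrix (Fin k) (Fin k) D →ₐ[ℚ]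
        Matrix (Fin (d * k)) (Fin (d * k)) ℚ_[(q : ℕ)] :=
      fun q => (ψ0 q).comp (e.symm : Matrix (Fin k) (Fin k) D →ₐ[ℚ] AL f p)
    let τ : Matrix (Fin k) (Fin k) D → ℚ := fun x => τ0 (e.symm x)
    have hψτ : ∀ (q : Nat.Primes) (x : Matrix (Fin k) (Fin k) D),
        (ψ q x).trace = (τ x : ℚ_[(q : ℕ)]) := fun q x => hτ0 (e.symm x) q
    let τL : Matrix (Fin k) (Fin k) D →ₗ[ℚ] ℚ :=
      { toFun := τ
        map_add' := by
          intro x y
          have h := hψτ p (x + y)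
          rw [map_add, Matrix.trace_add, hψτ p x, hψτ p y] at h
          exact_mod_cast h.symm
        map_smul' := by
          intro c x
          have h := hψτ p (c • x)
          rw [map_smul, Matrix.trace_smul, hψτ p x, Algebra.smul_def] at h
          simp only [RingHom.id_apply, smul_eq_mul]
          have h' : (((c * τ x : ℚ)) : ℚ_[(p : ℕ)]) = (τ (c • x) : ℚ_[(p : ℕ)]) := by
            rw [← h]
            push_cast
            rfl
          exact_mod_cast h'.symm }
    let σ : Λ →* Matrix (Fin k) (Fin k) D :=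
      { toFun := fun l => e (al f p l)
        map_one' := by rw [NOD_al_one, map_one]
        map_mul' := fun a b => by rw [NOD_al_mul, map_mul] }
    have hσψ : ∀ (q : Nat.Primes) (l : Λ), ψ q (σ l) = qM (s q l) := by
      intro q l
      show ψ0 q (e.symm (e (al f p l))) = _
      rw [AlgEquiv.symm_apply_apply]
      exact h1 q l
    have hspan' : Submodule.span ℚ (Set.range σ) = ⊤ := by
      rw [eq_top_iff]
      intro y _
      have hx := hspan (e.symm y) (e.symm y).2
      have hA : e.symm y ∈ Submodule.span ℚ (Set.range (al f p)) := by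
        have hm : (Submodule.span ℚ (Set.range (al f p))).map (AL f p).val.toLinearMap =
            Submodule.span ℚ (Set.range fun l => qM (f p l)) := by
          rw [Submodule.map_span, ← Set.range_comp]
          rfl
        rw [← hm] at hx
        obtain ⟨x', hx', he⟩ := hx
        have h4 : x' = e.symm y := Subtype.ext he
        rwa [← h4]
      have h5 : y ∈ (Submodule.span ℚ (Set.range (al f p))).map
          (e.toLinearEquiv : AL f p →ₗ[ℚ] Matrix (Fin k) (Fin k) D) :=
        ⟨e.symm y, hA, e.apply_symm_apply y⟩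
      rw [Submodule.map_span, ← Set.range_comp] at h5
      exact h5
    have hrankR : finrank ℚ (Matrix (Fin k) (Fin k) D) = (d * k) * (d * k) := by
      rw [← hrank]
      exact e.toLinearEquiv.finrank_eq.symm
    obtain ⟨ho1, ho2, ho3, ho4⟩ := hORA (d * k) (by omega) Λ (Matrix (Fin k) (Fin k) D) σ ψ s τ
      hrankR hspan' hσψ hψτ h3
    have hrep : ∀ q : Nat.Primes, ∃ φ : D →+* Matrix (Fin d) (Fin d) ℚ_[(q : ℕ)],
        ∀ x : D, (φ x).trace = (ψ q (Matrix.single ⟨0, hk⟩ ⟨0, hk⟩ x)).trace := fun q =>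
      hBLK ℚ_[(q : ℕ)] D d k hk (ψ q : Matrix (Fin k) (Fin k) D →+* _)
    obtain ⟨φ, hφ⟩ := hrep p
    have hφτ : ∀ x : D, (φ x).trace = (τ (Matrix.single ⟨0, hk⟩ ⟨0, hk⟩ x) : ℚ_[(p : ℕ)]) := by
      intro x
      rw [hφ x]
      exact hψτ p _
    have hspanO : Submodule.span ℚ (OO ψ : Set (Matrix (Fin k) (Fin k) D)) = ⊤ := by
      rw [eq_top_iff, ← hspan']
      refine Submodule.span_mono ?_
      rintro _ ⟨l, rfl⟩
      exact ho1 l
    have htra : ∀ x : D, (d : ℚ) * τL (Matrix.single ⟨0, hk⟩ ⟨0, hk⟩ x) = tra x := by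
      intro x
      have h4 := (hTRC D d hcen hdd ℚ_[(p : ℕ)] φ x).1
      rw [hφτ x] at h4
      exact_mod_cast h4
    have hint : ∀ x : D, IsIntegral ℤ x →
        ∃ z : ℤ, τL (Matrix.single ⟨0, hk⟩ ⟨0, hk⟩ x) = z := by
      intro x hx
      have h4 : IsIntegral ℤ (φ x) := hx.map φ.toIntAlgHom
      have h5 := NOD_tr_int (φ x) h4
      rw [hφτ x] at h5
      have h6 : IsIntegral ℤ (τ (Matrix.single ⟨0, hk⟩ ⟨0, hk⟩ x)) := by
        refine (isIntegral_algebraMap_iff (algebraMap ℚ ℚ_[(p : ℕ)]).injective).1 ?_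
        exact h5
      obtain ⟨z, hz⟩ := IsIntegrallyClosed.isIntegral_iff.1 h6
      exact ⟨z, hz.symm⟩
    obtain ⟨S⟩ := hORE k d hk D τL (OO ψ) hdd hd
      (by
        intro x y
        have h4 := hψτ p (x * y)
        rw [map_mul, Matrix.trace_mul_comm, ← map_mul, hψτ p] at h4
        show τ (x * y) = τ (y * x)
        exact_mod_cast h4.symm)
      ho4 hspanO ho3 htra hint
    exact hBRZ d D hd2 hcen S fun q hq => ⟨(hrep ⟨q, hq.out⟩).choose⟩
  subst hd1
  have e2 : AL f p ≃+* Matrix (Fin (1 * k)) (Fin (1 * k)) D :=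
    (e.trans (Matrix.reindexAlgEquiv ℚ D (finCongr (one_mul k).symm))).toRingEquiv
  obtain ⟨x, hx⟩ := hSPL (1 * k) (by omega) ℚ_[(p : ℕ)] (AL f p) D
    ((AL f p).val : AL f p →+* Matrix (Fin (1 * k)) (Fin (1 * k)) ℚ_[(p : ℕ)]) ⟨e2⟩
  exact ⟨x, hspan x x.2, hx⟩

end Pool.Agent.BRZ
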